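import Pool.Agent.CyCo.Three

/-!
# The number of distinct shortest-cover lengths over all cyclic shifts is `O(log n)`

We prove that for every word `S` of length `n ≥ 2` over any alphabet,
`|CyCoSet(S)| ≤ 21 * log n`.
-/

namespace Pool.Agent.Results.MP_419f2f_co.LogBound

open Pool.Agent.CyCo

universe u

variable {α : Type u}

/-- `C` occurs in `S` at position `i` (positions are counted from `0`): `C` is a prefix of the
suffix of `S` obtained by deleting the first `i` letters. -/
def OccursAt (C S : List α) (i : ℕ) : Prop := C <+: S.drop i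

/-- The non-empty word `C` is a cover of `S`: every position `p` of `S` lies inside an
occurrence of `C` in `S`. -/
def IsCover (C S : List α) : Prop :=
  C ≠ [] ∧ ∀ p, p < S.length → ∃ i, OccursAt C S i ∧ i ≤ p ∧ p < i + C.length

/-- The length of the shortest cover of `S`. -/
noncomputable def shCovLen (S : List α) : ℕ :=
  sInf {l | ∃ C : List α, IsCover C S ∧ C.length = l}

/-- `CyCoSet(S)`: the set of the lengths of the shortest covers of the cyclic shifts
`S.rotate i`, `0 ≤ i < |S|` (`S.rotate i` moves the first `i` letters of `S` to the end). -/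
noncomputable def cyCoSet (S : List α) : Finset ℕ :=
  (Finset.range S.length).image fun i => shCovLen (S.rotate i)

theorem isCover_self (S : List α) (h : S ≠ []) : IsCover S S := by
  refine ⟨h, fun p hp => ⟨0, ?_, Nat.zero_le _, by simpa using hp⟩⟩
  simp [OccursAt]

/-- The bi-infinite periodic word of `S`. -/
def ext (S : List α) (k : ℤ) : Option α := S[(k % (S.length : ℤ)).toNat]?

theorem ext_period (S : List α) (k m : ℤ) : ext S (k + S.length * m) = ext S k := by
  unfold ext
  rw [Int.add_mul_emod_self_left]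

theorem rotate_getElem? (S : List α) (i k : ℕ) (hk : k < S.length) :
    (S.rotate i)[k]? = ext S ((i : ℤ) + k) := by
  rw [List.getElem?_rotate hk]
  unfold ext
  congr 1
  rw [add_comm k i]
  have : ((i : ℤ) + k) % (S.length : ℤ) = (((i + k) % S.length : ℕ) : ℤ) := by push_cast; rfl
  rw [this, Int.toNat_natCast]

theorem good (S : List α) (hS : S ≠ []) (i : ℕ) :
    0 < shCovLen (S.rotate i) ∧ shCovLen (S.rotate i) ≤ S.length ∧
    Good (ext S) (shCovLen (S.rotate i) : ℤ) (i : ℤ) := by
  obtain ⟨w, hw⟩ : ∃ w, w = S.rotate i := ⟨_, rfl⟩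
  rw [← hw]
  have hlen : w.length = S.length := by rw [hw, List.length_rotate]
  have hwne : w ≠ [] := by
    intro h0
    rw [h0] at hlen
    exact hS (List.length_eq_zero_iff.mp hlen.symm)
  have hn : 0 < S.length := List.length_pos_of_ne_nil hS
  have hget : ∀ k, k < S.length → w[k]? = ext S ((i : ℤ) + k) := fun k hk => by
    rw [hw]; exact rotate_getElem? S i k hk
  have hmem : shCovLen w ∈ {l | ∃ C : List α, IsCover C w ∧ C.length = l} :=
    Nat.sInf_mem ⟨w.length, w, isCover_self w hwne, rfl⟩
  obtain ⟨C, ⟨hC0, hCc⟩, hCl⟩ := hmem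
  have hmin : ∀ D : List α, IsCover D w → shCovLen w ≤ D.length := fun D hD =>
    Nat.sInf_le ⟨D, hD, rfl⟩
  obtain ⟨c, hc⟩ : ∃ c, c = shCovLen w := ⟨_, rfl⟩
  rw [← hc] at hCl hmin ⊢
  have hcpos : 0 < c := by rw [← hCl]; exact List.length_pos_of_ne_nil hC0
  -- occurrences of `C`
  have occ_len : ∀ j, OccursAt C w j → j + c ≤ S.length := by
    intro j hj
    have := hj.length_le
    rw [List.length_drop, hlen, hCl] at this
    omega
  have occ_get : ∀ j, OccursAt C w j → ∀ h (hh : h < C.length),
      ext S ((i : ℤ) + ((j + h : ℕ) : ℤ)) = some C[h] := by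
    intro j hj h hh
    have h1 := List.prefix_iff_getElem?.mp hj h hh
    rw [List.getElem?_drop] at h1
    have h2 := occ_len j hj
    rw [hget (j + h) (by omega)] at h1
    exact h1
  obtain ⟨j0, hj0, hj0', hj0''⟩ := hCc 0 (by omega)
  have hj00 : j0 = 0 := by omega
  subst hj00
  have hcn : c ≤ S.length := by have := occ_len 0 hj0; omega
  have occ_occ : ∀ j, OccursAt C w j → Occ (ext S) i c ((i : ℤ) + j) := by
    intro j hj h h0 h1
    lift h to ℕ using h0
    have hh : h < C.length := by omega
    have e1 := occ_get j hj h hh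
    have e2 := occ_get 0 hj0 h hh
    rw [show (i : ℤ) + j + h = (i : ℤ) + ((j + h : ℕ) : ℤ) by push_cast; ring,
      show (i : ℤ) + h = (i : ℤ) + ((0 + h : ℕ) : ℤ) by push_cast; ring, e1, e2]
  have occ_shift : ∀ t m : ℤ, Occ (ext S) i c t → Occ (ext S) i c (t + S.length * m) := by
    intro t m ht h h0 h1
    rw [show t + S.length * m + h = (t + h) + S.length * m by ring, ext_period]
    exact ht h h0 h1
  refine ⟨hcpos, hcn, ⟨by exact_mod_cast hcpos, ?_, ?_, ?_⟩⟩
  · -- square
    obtain ⟨j, hj, hj1, hj2⟩ := hCc (S.length - 1) (by omega)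
    have hj3 := occ_len j hj
    have := occ_shift _ (-1) (occ_occ j hj)
    rw [show (i : ℤ) + j + S.length * (-1) = (i : ℤ) - c by
      have : ((j + c : ℕ) : ℤ) = S.length := by exact_mod_cast (by omega : j + c = S.length)
      push_cast at this
      linarith] at this
    exact this
  · -- coverage
    intro x
    have hn' : (0 : ℤ) < S.length := by exact_mod_cast hn
    have r1 := Int.emod_nonneg (x - i) hn'.ne'
    have r2 := Int.emod_lt_of_pos (x - i) hn'
    have q1 := Int.emod_add_mul_ediv (x - i) S.length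
    obtain ⟨y, hy⟩ := Int.eq_ofNat_of_zero_le r1
    obtain ⟨j, hj, hj1, hj2⟩ := hCc y (by omega)
    refine ⟨(i : ℤ) + j + S.length * ((x - i) / S.length), ?_, ?_,
      occ_shift _ _ (occ_occ j hj)⟩
    · have : (j : ℤ) ≤ y := by exact_mod_cast hj1
      linarith
    · have : (y : ℤ) < j + c := by
        have : y < j + c := by omega
        exact_mod_cast this
      linarith
  · -- superprimitivity
    intro d hd0 hd1 hcov
    lift d to ℕ using hd0.le
    have hd0' : 0 < d := by exact_mod_cast hd0
    have hd1' : d < c := by exact_mod_cast hd1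
    have hDl : (C.take d).length = d := by rw [List.length_take]; omega
    have := hmin (C.take d) ⟨by
      intro h0
      rw [h0] at hDl
      simp at hDl
      omega, ?_⟩
    · rw [hDl] at this
      omega
    · intro p hp
      obtain ⟨j, hj, hj1, hj2⟩ := hCc p hp
      have hj3 := occ_len j hj
      obtain ⟨t, t0, t1, t2, t3, t4⟩ := hcov ((p - j : ℕ) : ℤ) (by positivity) (by
        have : p - j < c := by omega
        exact_mod_cast this)
      lift t to ℕ using t0
      have t1' : t ≤ p - j := by exact_mod_cast t1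
      have t2' : p - j < t + d := by exact_mod_cast t2
      have t3' : t + d ≤ c := by exact_mod_cast t3
      refine ⟨j + t, ?_, by omega, by rw [hDl]; omega⟩
      unfold OccursAt
      rw [List.prefix_iff_getElem?]
      intro h hh
      have hh' : h < d := by omega
      rw [List.getElem?_drop, hget (j + t + h) (by omega), List.getElem_take]
      have e1 := occ_get j hj (t + h) (by omega)
      have e2 := occ_get 0 hj0 (t + h) (by omega)
      have e3 := occ_get 0 hj0 h (by omega)
      have e4 := t4 (h : ℤ) (by positivity) (by exact_mod_cast hh')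
      rw [show (i : ℤ) + ((j + t + h : ℕ) : ℤ) = (i : ℤ) + ((j + (t + h) : ℕ) : ℤ) by
        push_cast; ring, e1, ← e2, ← e3,
        show (i : ℤ) + ((0 + (t + h) : ℕ) : ℤ) = (i : ℤ) + t + h by push_cast; ring,
        show (i : ℤ) + ((0 + h : ℕ) : ℤ) = (i : ℤ) + h by push_cast; ring]
      exact e4

theorem growth (k : ℕ) : ∀ F : Finset ℕ, (∀ x ∈ F, 0 < x) →
    (∀ a ∈ F, ∀ b ∈ F, ∀ c ∈ F, a < b → b < c → a < 8 * (c - a)) → 2 * k + 1 ≤ F.card →
    ∃ x ∈ F, ((9 : ℝ) / 8) ^ k ≤ x := by
  induction k with
  | zero =>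
    intro F h0 h1 hc
    obtain ⟨x, hx⟩ := Finset.card_pos.mp (by omega : 0 < F.card)
    refine ⟨x, hx, ?_⟩
    simp only [pow_zero]
    exact_mod_cast h0 x hx
  | succ k ih =>
    intro F h0 h1 hc
    have ne1 : F.Nonempty := Finset.card_pos.mp (by omega)
    have m1 := F.max'_mem ne1
    have c1 : (F.erase (F.max' ne1)).card = F.card - 1 := Finset.card_erase_of_mem m1
    have ne2 : (F.erase (F.max' ne1)).Nonempty := Finset.card_pos.mp (by omega)
    have m2 := (F.erase (F.max' ne1)).max'_mem ne2
    have c2 := Finset.card_erase_of_mem m2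
    obtain ⟨x, hx, hxk⟩ := ih ((F.erase (F.max' ne1)).erase ((F.erase (F.max' ne1)).max' ne2))
      (fun x hx => h0 x (Finset.mem_of_mem_erase (Finset.mem_of_mem_erase hx)))
      (fun a ha b hb c hc => h1 a (Finset.mem_of_mem_erase (Finset.mem_of_mem_erase ha)) b
        (Finset.mem_of_mem_erase (Finset.mem_of_mem_erase hb)) c
        (Finset.mem_of_mem_erase (Finset.mem_of_mem_erase hc))) (by omega)
    have hx1 := Finset.mem_of_mem_erase hx
    have lt1 : x < (F.erase (F.max' ne1)).max' ne2 :=
      lt_of_le_of_ne (Finset.le_max' _ _ hx1) (Finset.ne_of_mem_erase hx)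
    have lt2 : (F.erase (F.max' ne1)).max' ne2 < F.max' ne1 :=
      lt_of_le_of_ne (Finset.le_max' _ _ (Finset.mem_of_mem_erase m2))
        (Finset.ne_of_mem_erase m2)
    have h := h1 x (Finset.mem_of_mem_erase hx1) _ (Finset.mem_of_mem_erase m2) _ m1 lt1 lt2
    refine ⟨F.max' ne1, m1, ?_⟩
    have h' : 9 * x < 8 * F.max' ne1 := by omega
    have h'' : (9 : ℝ) * x < 8 * (F.max' ne1 : ℕ) := by exact_mod_cast h'
    rw [pow_succ]
    linarith

/-- **The number of distinct shortest-cover lengths over all cyclic shifts is `O(log n)`.**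
For every word `S` of length `n ≥ 2` over any alphabet, `|CyCoSet(S)| ≤ 21 log n`. -/
theorem result : ∀ (α : Type u) (S : List α), 2 ≤ S.length →
    ((cyCoSet S).card : ℝ) ≤ 21 * Real.log S.length := by
  intro α S hS
  have hne : S ≠ [] := by
    intro h; rw [h] at hS; simp at hS
  obtain ⟨k, hk⟩ : ∃ k, k = ((cyCoSet S).card - 1) / 2 := ⟨_, rfl⟩
  have hcard : 0 < (cyCoSet S).card := by
    rw [Finset.card_pos]
    exact ⟨shCovLen (S.rotate 0), Finset.mem_image_of_mem _ (Finset.mem_range.mpr (by omega))⟩
  obtain ⟨x, hx, hxk⟩ := growth k (cyCoSet S) (by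
      intro x hx
      obtain ⟨i, -, rfl⟩ := Finset.mem_image.mp hx
      exact (good S hne i).1) (by
      intro a ha b hb c hc hab hbc
      obtain ⟨i, -, rfl⟩ := Finset.mem_image.mp ha
      obtain ⟨j, -, rfl⟩ := Finset.mem_image.mp hb
      obtain ⟨l, -, rfl⟩ := Finset.mem_image.mp hc
      by_contra hcon
      exact three (good S hne i).2.2 (good S hne j).2.2 (good S hne l).2.2
        (by exact_mod_cast hab) (by exact_mod_cast hbc) (by omega)) (by omega)
  have hxn : x ≤ S.length := by
    obtain ⟨i, -, rfl⟩ := Finset.mem_image.mp hx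
    exact (good S hne i).2.1
  have hn2 : (2 : ℝ) ≤ S.length := by exact_mod_cast hS
  have hxn' : ((9 : ℝ) / 8) ^ k ≤ S.length := hxk.trans (by exact_mod_cast hxn)
  have hlog : (k : ℝ) * Real.log (9 / 8) ≤ Real.log S.length := by
    rw [← Real.log_pow]
    exact Real.log_le_log (by positivity) hxn'
  have h98 : (1 : ℝ) / 9 ≤ Real.log (9 / 8) := by
    have := Real.one_sub_inv_le_log_of_pos (x := (9 : ℝ) / 8) (by norm_num)
    norm_num at this ⊢
    exact this
  have hl2 : (0.69 : ℝ) ≤ Real.log S.length :=
    le_trans (by have := Real.log_two_gt_d9; linarith) (Real.log_le_log (by norm_num) hn2)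
  have hk9 : (k : ℝ) ≤ 9 * Real.log S.length := by
    have hk0 : (0 : ℝ) ≤ k := by positivity
    nlinarith
  have hm : (cyCoSet S).card ≤ 2 * k + 2 := by omega
  have hm' : ((cyCoSet S).card : ℝ) ≤ 2 * k + 2 := by exact_mod_cast hm
  linarith

end Pool.Agent.Results.MP_419f2f_co.LogBound
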